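import Mathlib
import Pool.Agent.U214.UN.Full2

/-!
# The moments in strips
-/

set_option autoImplicit false

namespace Pool.Agent.U214.DO

open Finset Polynomial Pool.Agent.W262.RK Pool.Agent.U214.PT Pool.Agent.U214.GT
open Pool.Agent.U214.UN UniqueFactorizationMonoid

lemma eA : (C (-1) * X + C 1 : ℤ[X]) = 1 - X := by
  simp only [map_neg, map_one]
  ring

lemma eB : (C (-2) * X + C 1 : ℤ[X]) = 1 - 2 * X := by
  rw [show (C (-2 : ℤ) : ℤ[X]) = -2 by rw [map_neg]; rfl, map_one]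
  ring

lemma natDegB : (C (-2) * X + C 1 : ℤ[X]).natDegree = (C (-1) * X + C 1 : ℤ[X]).natDegree ∧
    ((C (-1) * X + C 1 : ℤ[X]) - (C (-2) * X + C 1)).natDegree =
      (C (-1) * X + C 1 : ℤ[X]).natDegree := by
  have h2 : ((C (-1) * X + C 1 : ℤ[X]) - (C (-2) * X + C 1)) = X := by
    rw [eA, eB]
    ring
  rw [h2, natDegree_linear (by norm_num), natDegree_linear (by norm_num), natDegree_X]
  exact ⟨rfl, rfl⟩

lemma sqfB : Squarefree (((C (-1) * X + C 1 : ℤ[X]) * (C (-2) * X + C 1) *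
    ((C (-1) * X + C 1) - (C (-2) * X + C 1))).map (Int.castRingHom ℚ)) := by
  have h : ((C (-1) * X + C 1 : ℤ[X]) * (C (-2) * X + C 1) *
    ((C (-1) * X + C 1) - (C (-2) * X + C 1))).map (Int.castRingHom ℚ) =
      ((X : ℚ[X]) * (C (-1) * X + C 1)) * (C (-2) * X + C 1) := by
    have h2 : ((C (-1) * X + C 1 : ℤ[X]) - (C (-2) * X + C 1)) = X := by
      rw [eA, eB]
      ring
    rw [h2]
    simp only [Polynomial.map_mul, Polynomial.map_add, map_X, Polynomial.map_C]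
    simp only [eq_intCast, Int.cast_neg, Int.cast_one, Int.cast_ofNat]
    ring
  rw [h]
  have i1 : Irreducible (X : ℚ[X]) := irreducible_X
  have i2 : Irreducible (C (-1) * X + C 1 : ℚ[X]) :=
    irreducible_of_degree_eq_one (degree_linear (a := (-1 : ℚ)) (b := 1) (by norm_num))
  have i3 : Irreducible (C (-2) * X + C 1 : ℚ[X]) :=
    irreducible_of_degree_eq_one (degree_linear (a := (-2 : ℚ)) (b := 1) (by norm_num))
  have e1 : (C (-1 : ℚ) : ℚ[X]) = -1 := by rw [map_neg, map_one]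
  have e2 : (C (-2 : ℚ) : ℚ[X]) = -2 := by rw [map_neg]; rfl
  have c1 : IsCoprime (X : ℚ[X]) (C (-1) * X + C 1) := ⟨1, 1, by rw [e1, map_one]; ring⟩
  have c2 : IsCoprime ((X : ℚ[X]) * (C (-1) * X + C 1)) (C (-2) * X + C 1) := by
    refine ⟨4, -(2 * X - 1), ?_⟩
    rw [e1, e2, map_one]
    ring_nf
  exact squarefree_mul_iff.2 ⟨c2.isRelPrime, squarefree_mul_iff.2 ⟨c1.isRelPrime,
    i1.squarefree, i2.squarefree⟩, i3.squarefree⟩

/-- **the box theorem**: `a = n - m`, `b = n - 2 m` -/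
theorem full_boxB {Q : ℤ → ℤ → ℝ} (hQ : QL Q) {c : ℤ} (hc : c ≠ 0) (r K : ℕ) :
    ∃ C : ℝ, ∀ X Y v : ℕ, ∀ u : ℤ, 1 ≤ X → 1 ≤ Y → v + Y ≤ X ^ K → v + Y ≤ Y ^ K →
      u.natAbs ≤ X ^ K →
      ∑ w ∈ ((Ioc u (u + X)) ×ˢ (Ioc v (v + Y))).filter (fun w : ℤ × ℕ =>
        IsCoprime w.1 (w.2 : ℤ) ∧ (w.2 - w.1) * (w.2 - 2 * w.1) *
          ((w.2 - w.1) - (w.2 - 2 * w.1)) ≠ 0),
        Q ((w.2 - w.1) * c) ((w.2 - 2 * w.1) * c) ^ r ≤ C * (X * Y * (1 + Real.log X) ^ e2 r) := by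
  classical
  have hn1 : nf (C (-1) * X + C 1 : ℤ[X]) = 1 := nf_lin (-1) 1 (by norm_num) rfl
  have hn2 : nf (C (-2) * X + C 1 : ℤ[X]) = 1 := nf_lin (-2) 1 (by norm_num) rfl
  have hn3 : nf ((C (-1) * X + C 1 : ℤ[X]) - (C (-2) * X + C 1)) = 1 :=
    nf_lin 1 0 one_ne_zero (by
      rw [eA, eB, map_one, map_zero]
      ring)
  have he : ((2 : ℝ) ^ r - 1) * (((1 : ℕ) : ℝ) - (((1 : ℕ) : ℝ) + ((1 : ℕ) : ℝ)) / 2 ^ r) ≤ e2 r := by
    unfold e2
    norm_num
  obtain ⟨C0, hC⟩ := famBox (A := C (-1) * X + C 1) (B := C (-2) * X + C 1) (D := C c) (r := r)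
    (e := e2 r) hQ natDegB.1
    natDegB.2 (by simpa using hc) sqfB (fun P hP _ => by
      have h1 : multiplicity P ((C c : ℤ[X]).map (Int.castRingHom ℚ)) = 0 := by
        apply multiplicity_eq_zero.2
        intro h
        apply hP.not_isUnit
        refine isUnit_of_dvd_unit h ?_
        rw [map_C]
        exact isUnit_C.2 (by simpa using hc)
      rw [h1]
      exact Even.zero) (e2_nn r) (by rw [hn1, hn2, hn3]; exact he)
      (by rw [hn1, hn2, hn3]; exact he) (by rw [hn1, hn2, hn3]; exact he) K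
  refine ⟨C0, fun X Y v u hX hY h1 h2 h3 => ?_⟩
  have h4 := hC X Y v u hX hY h1 h2 h3
  have hA : ∀ m n : ℤ, hom (C (-1) * Polynomial.X + C 1 : ℤ[X]) m n = n - m := by
    intro m n
    unfold hom
    rw [natDegree_linear (by norm_num), sum_range_succ, sum_range_one]
    simp [coeff_one, coeff_X]
    ring
  have hB : ∀ m n : ℤ, hom (C (-2) * Polynomial.X + C 1 : ℤ[X]) m n = n - 2 * m := by
    intro m n
    unfold hom
    rw [natDegree_linear (by norm_num), sum_range_succ, sum_range_one]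
    simp [coeff_one, coeff_X]
    ring
  have hD : ∀ m n : ℤ, hom (C c : ℤ[X]) m n = c := by
    intro m n
    unfold hom
    rw [natDegree_C, zero_add, sum_range_one]
    simp
  simp only [hA, hB, hD] at h4
  refine le_trans (le_of_eq ?_) h4
  apply sum_congr _ fun _ _ => rfl
  apply filter_congr
  intro w _
  have : ((w.2 : ℤ) - w.1) * (w.2 - 2 * w.1) * ((w.2 - w.1) - (w.2 - 2 * w.1)) * c ≠ 0 ↔
      ((w.2 : ℤ) - w.1) * (w.2 - 2 * w.1) * ((w.2 - w.1) - (w.2 - 2 * w.1)) ≠ 0 := by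
    rw [mul_ne_zero_iff]
    exact ⟨fun h => h.1, fun h => ⟨h, hc⟩⟩
  rw [this]

end Pool.Agent.U214.DO
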