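import Mathlib
import Pool.Agent.U214.DO.A

/-!
# The moments in strips, and the covering by strips
-/

set_option autoImplicit false

namespace Pool.Agent.U214.DO

open Finset Polynomial Pool.Agent.W262.RK Pool.Agent.U214.PT Pool.Agent.U214.GT
open Pool.Agent.U214.UN

/-- the conditions on a pair -/
def Ok (w : ℤ × ℤ) : Prop := IsCoprime w.1 w.2 ∧ w.1 * w.2 * (w.1 - w.2) ≠ 0

/-- one half of a strip -/
lemma half {Q : ℤ → ℤ → ℝ} (hQ : QL Q) (fa fb gm gn : ℤ → ℤ → ℤ) {c : ℤ}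
    (r : ℕ)
    (hinv : ∀ a b, fa (gm a b) (gn a b) = a ∧ fb (gm a b) (gn a b) = b)
    (hcop : ∀ a b, IsCoprime a b → IsCoprime (gm a b) (gn a b))
    (hbox : ∃ C : ℝ, ∀ X Y v : ℕ, ∀ u : ℤ, 1 ≤ X → 1 ≤ Y → v + Y ≤ X ^ 4 → v + Y ≤ Y ^ 4 →
      u.natAbs ≤ X ^ 4 →
      ∑ w ∈ ((Ioc u (u + X)) ×ˢ (Ioc v (v + Y))).filter (fun w : ℤ × ℕ =>
        IsCoprime w.1 (w.2 : ℤ) ∧ fa w.1 w.2 * fb w.1 w.2 * (fa w.1 w.2 - fb w.1 w.2) ≠ 0),
        Q (fa w.1 w.2 * c) (fb w.1 w.2 * c) ^ r ≤ C * (X * Y * (1 + Real.log X) ^ e2 r)) :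
    ∃ C : ℝ, 0 ≤ C ∧ ∀ S N : ℕ, 1 ≤ S → 1 ≤ N → N ≤ S ^ 4 → ∀ T : Finset (ℤ × ℤ),
      (∀ w ∈ T, Ok w ∧ |gm w.1 w.2| ≤ S ∧ 0 < gn w.1 w.2 ∧ gn w.1 w.2 ≤ N) →
      ∑ w ∈ T, Q (w.1 * c) (w.2 * c) ^ r ≤ C * (S * N * (1 + Real.log S) ^ e2 r) := by
  classical
  obtain ⟨C, hC⟩ := hbox
  refine ⟨|C| * (3 * 3 ^ e2 r), by positivity, fun S N hS hN hNS T hT => ?_⟩
  have hp : S ≤ (2 * S + 1) ^ 4 := by
    calc S ≤ 2 * S + 1 := by omega
      _ ≤ _ := Nat.le_self_pow (by norm_num) _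
  have h1 := hC (2 * S + 1) N 0 (-(S : ℤ) - 1) (by omega) (by omega)
    (by rw [zero_add]; exact hNS.trans (Nat.pow_le_pow_left (by omega) 4))
    (by rw [zero_add]; exact Nat.le_self_pow (by norm_num) _)
    (by
      have : ((-(S : ℤ) - 1)).natAbs = S + 1 := by omega
      rw [this]
      calc S + 1 ≤ 2 * S + 1 := by omega
        _ ≤ _ := Nat.le_self_pow (by norm_num) _)
  have hSr : (1 : ℝ) ≤ S := by exact_mod_cast hS
  have hl : 0 ≤ Real.log S := Real.log_nonneg hSr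
  have h2 : ∑ w ∈ T, Q (w.1 * c) (w.2 * c) ^ r ≤
      ∑ w ∈ ((Ioc (-(S : ℤ) - 1) (-(S : ℤ) - 1 + ((2 * S + 1 : ℕ) : ℤ))) ×ˢ
        (Ioc 0 (0 + N))).filter (fun w : ℤ × ℕ =>
        IsCoprime w.1 (w.2 : ℤ) ∧ fa w.1 w.2 * fb w.1 w.2 * (fa w.1 w.2 - fb w.1 w.2) ≠ 0),
        Q (fa w.1 w.2 * c) (fb w.1 w.2 * c) ^ r := by
    refine le_trans (le_of_eq ?_) (sum_le_sum_of_subset_of_nonneg
      (s := T.image (fun w => (gm w.1 w.2, (gn w.1 w.2).toNat))) ?_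
      fun _ _ _ => pow_nonneg (hQ.nn _ _) _)
    · rw [sum_image]
      · refine sum_congr rfl fun w hw => ?_
        have h3 := (hT w hw).2.2.1
        simp only
        rw [Int.toNat_of_nonneg (by omega), (hinv w.1 w.2).1, (hinv w.1 w.2).2]
      · intro a ha b hb hab
        have h3 := (hT a ha).2.2.1
        have h4 := (hT b hb).2.2.1
        have h5 := congrArg Prod.fst hab
        have h6 := congrArg Prod.snd hab
        simp only at h5 h6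
        have h7 : gn a.1 a.2 = gn b.1 b.2 := by omega
        have h8 := hinv a.1 a.2
        have h9 := hinv b.1 b.2
        rw [← h5, ← h7] at h9
        exact Prod.ext (h8.1.symm.trans h9.1) (h8.2.symm.trans h9.2)
    · intro w hw
      obtain ⟨a, ha, rfl⟩ := mem_image.1 hw
      obtain ⟨⟨ha1, ha2⟩, ha3, ha4, ha5⟩ := hT a ha
      rw [mem_filter, mem_product, mem_Ioc, mem_Ioc]
      simp only
      have hh : (((gn a.1 a.2).toNat : ℕ) : ℤ) = gn a.1 a.2 := Int.toNat_of_nonneg (by omega)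
      rw [hh, (hinv a.1 a.2).1, (hinv a.1 a.2).2]
      rw [abs_le] at ha3
      refine ⟨⟨by omega, by omega⟩, hcop _ _ ha1, ha2⟩
  refine (h2.trans h1).trans ?_
  have h3 : (1 + Real.log ((2 * S + 1 : ℕ) : ℝ)) ^ e2 r ≤ 3 ^ e2 r * (1 + Real.log S) ^ e2 r := by
    rw [← Real.mul_rpow (by norm_num) (by linarith)]
    have h4 : Real.log ((2 * S + 1 : ℕ) : ℝ) ≤ 2 + Real.log S := by
      have h5 : ((2 * S + 1 : ℕ) : ℝ) ≤ 3 * S := by
        push_cast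
        linarith
      have h6 := Real.log_le_log (by positivity) h5
      rw [Real.log_mul (by norm_num) (by positivity)] at h6
      have h7 := Real.log_le_sub_one_of_pos (show (0 : ℝ) < 3 by norm_num)
      linarith
    have h5 : 0 ≤ Real.log ((2 * S + 1 : ℕ) : ℝ) := Real.log_nonneg (by push_cast; linarith)
    exact Real.rpow_le_rpow (by linarith) (by linarith) (e2_nn r)
  have h4 : 0 ≤ (1 + Real.log ((2 * S + 1 : ℕ) : ℝ)) ^ e2 r :=
    Real.rpow_nonneg (by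
      have := Real.log_nonneg (show (1 : ℝ) ≤ ((2 * S + 1 : ℕ) : ℝ) by push_cast; linarith)
      linarith) _
  have h5 : ((2 * S + 1 : ℕ) : ℝ) * (N : ℝ) ≤ 3 * (S : ℝ) * N := by
    apply mul_le_mul_of_nonneg_right _ (Nat.cast_nonneg _)
    push_cast
    linarith
  calc C * (((2 * S + 1 : ℕ) : ℝ) * (N : ℝ) *
        (1 + Real.log ((2 * S + 1 : ℕ) : ℝ)) ^ e2 r)
      ≤ |C| * (((2 * S + 1 : ℕ) : ℝ) * (N : ℝ) *
        (1 + Real.log ((2 * S + 1 : ℕ) : ℝ)) ^ e2 r) :=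
        mul_le_mul_of_nonneg_right (le_abs_self C) (mul_nonneg (by positivity) h4)
    _ ≤ |C| * (3 * (S : ℝ) * N * (3 ^ e2 r * (1 + Real.log S) ^ e2 r)) := by
        apply mul_le_mul_of_nonneg_left _ (abs_nonneg C)
        exact mul_le_mul h5 h3 h4 (by positivity)
    _ = _ := by ring

lemma neg_ok {w : ℤ × ℤ} (h : Ok w) : Ok (-w.1, -w.2) := by
  obtain ⟨h1, h2⟩ := h
  refine ⟨h1.neg_neg, ?_⟩
  have : -w.1 * -w.2 * (-w.1 - -w.2) = -(w.1 * w.2 * (w.1 - w.2)) := by ring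
  simp only
  rw [this]
  exact neg_ne_zero.2 h2

/-- a strip -/
lemma strip {Q : ℤ → ℤ → ℝ} (hQ : QL Q) (fa fb gm gn : ℤ → ℤ → ℤ)
    (r : ℕ)
    (hinv : ∀ a b, fa (gm a b) (gn a b) = a ∧ fb (gm a b) (gn a b) = b)
    (hodd : ∀ a b, gm (-a) (-b) = - gm a b ∧ gn (-a) (-b) = - gn a b)
    (hcop : ∀ a b, IsCoprime a b → IsCoprime (gm a b) (gn a b))
    (hbox : ∀ c : ℤ, c ≠ 0 →
      ∃ C : ℝ, ∀ X Y v : ℕ, ∀ u : ℤ, 1 ≤ X → 1 ≤ Y → v + Y ≤ X ^ 4 → v + Y ≤ Y ^ 4 →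
      u.natAbs ≤ X ^ 4 →
      ∑ w ∈ ((Ioc u (u + X)) ×ˢ (Ioc v (v + Y))).filter (fun w : ℤ × ℕ =>
        IsCoprime w.1 (w.2 : ℤ) ∧ fa w.1 w.2 * fb w.1 w.2 * (fa w.1 w.2 - fb w.1 w.2) ≠ 0),
        Q (fa w.1 w.2 * c) (fb w.1 w.2 * c) ^ r ≤ C * (X * Y * (1 + Real.log X) ^ e2 r)) :
    ∃ C : ℝ, 0 ≤ C ∧ ∀ S N : ℕ, 1 ≤ S → 1 ≤ N → N ≤ S ^ 4 → ∀ T : Finset (ℤ × ℤ),
      (∀ w ∈ T, Ok w ∧ |gm w.1 w.2| ≤ S ∧ gn w.1 w.2 ≠ 0 ∧ |gn w.1 w.2| ≤ N) →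
      ∑ w ∈ T, Q w.1 w.2 ^ r ≤ C * (S * N * (1 + Real.log S) ^ e2 r) := by
  classical
  obtain ⟨C1, hC1, h1⟩ := half hQ fa fb gm gn r hinv hcop (hbox 1 one_ne_zero)
  obtain ⟨C2, hC2, h2⟩ := half hQ fa fb gm gn r hinv hcop (hbox (-1) (by norm_num))
  refine ⟨C1 + C2, by positivity, fun S N hS hN hNS T hT => ?_⟩
  have g1 := h1 S N hS hN hNS (T.filter (fun w => 0 < gn w.1 w.2)) (fun w hw => by
    rw [mem_filter] at hw
    obtain ⟨a1, a2, a3, a4⟩ := hT w hw.1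
    exact ⟨a1, a2, hw.2, (abs_le.1 a4).2⟩)
  have g2 := h2 S N hS hN hNS ((T.filter (fun w => ¬ 0 < gn w.1 w.2)).image
    (fun w => (-w.1, -w.2))) (fun w hw => by
    obtain ⟨x, hx, rfl⟩ := mem_image.1 hw
    rw [mem_filter] at hx
    obtain ⟨a1, a2, a3, a4⟩ := hT x hx.1
    refine ⟨neg_ok a1, ?_, ?_, ?_⟩
    · simp only
      rw [(hodd _ _).1, abs_neg]
      exact a2
    · simp only
      rw [(hodd _ _).2]
      have := hx.2
      omega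
    · simp only
      rw [(hodd _ _).2]
      exact (neg_le_abs _).trans a4)
  rw [sum_image (by
    intro a _ b _ hab
    have h5 := congrArg Prod.fst hab
    have h6 := congrArg Prod.snd hab
    simp only at h5 h6
    exact Prod.ext (by omega) (by omega))] at g2
  rw [← sum_filter_add_sum_filter_not T (fun w => 0 < gn w.1 w.2)]
  simp only [mul_one] at g1
  have e1 : ∀ w : ℤ × ℤ, Q (-w.1 * -1) (-w.2 * -1) ^ r = Q w.1 w.2 ^ r := by
    intro w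
    congr 2 <;> ring
  simp only [e1] at g2
  rw [add_mul]
  exact add_le_add g1 g2

/-- the three strips -/
lemma strips {Q : ℤ → ℤ → ℝ} (hQ : QL Q) (hsym : ∀ a b, Q a b = Q b a) (r : ℕ) :
    ∃ C : ℝ, 0 ≤ C ∧ ∀ S N : ℕ, 1 ≤ S → 1 ≤ N → N ≤ S ^ 4 → ∀ T : Finset (ℤ × ℤ),
      ((∀ w ∈ T, Ok w ∧ |w.1| ≤ S ∧ w.1 + w.2 ≠ 0 ∧ |w.1 + w.2| ≤ N) ∨
       (∀ w ∈ T, Ok w ∧ |w.2| ≤ S ∧ w.1 + w.2 ≠ 0 ∧ |w.1 + w.2| ≤ N) ∨
       (∀ w ∈ T, Ok w ∧ |w.1 - w.2| ≤ S ∧ 2 * w.1 - w.2 ≠ 0 ∧ |2 * w.1 - w.2| ≤ N)) →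
      ∑ w ∈ T, Q w.1 w.2 ^ r ≤ C * (S * N * (1 + Real.log S) ^ e2 r) := by
  classical
  obtain ⟨C1, hC1, h1⟩ := strip hQ (fun m _ => m) (fun m n => -(m + n)) (fun a _ => a)
    (fun a b => -(a + b)) r (fun a b => ⟨rfl, by ring⟩) (fun a b => ⟨rfl, by ring⟩)
    (fun a b h => by
      obtain ⟨x, y, hxy⟩ := h
      exact ⟨x - y, -y, by linear_combination hxy⟩) (fun c hc => by
      obtain ⟨C, hC⟩ := full_box hQ hc r 4
      refine ⟨C, fun X Y v u hX hY h1 h2 h3 => le_trans (le_of_eq ?_) (hC X Y v u hX hY h1 h2 h3)⟩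
      apply sum_congr _ fun _ _ => rfl
      apply filter_congr
      intro w _
      rw [show w.1 - -(w.1 + (w.2 : ℤ)) = 2 * w.1 + w.2 by ring])
  obtain ⟨C2, hC2, h2⟩ := strip hQ (fun m n => n - m) (fun m n => n - 2 * m) (fun a b => a - b)
    (fun a b => 2 * a - b) r (fun a b => ⟨by ring, by ring⟩) (fun a b => ⟨by ring, by ring⟩)
    (fun a b h => by
      obtain ⟨x, y, hxy⟩ := h
      exact ⟨-x - 2 * y, x + y, by linear_combination hxy⟩) (fun c hc => full_boxB hQ hc r 4)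
  refine ⟨C1 + C2, by positivity, fun S N hS hN hNS T hT => ?_⟩
  have hSr : (1 : ℝ) ≤ S := by exact_mod_cast hS
  have hW : 0 ≤ (S : ℝ) * N * (1 + Real.log S) ^ e2 r :=
    mul_nonneg (by positivity) (Real.rpow_nonneg (by have := Real.log_nonneg hSr; linarith) _)
  rcases hT with hT | hT | hT
  · have g := h1 S N hS hN hNS T (fun w hw => by
      obtain ⟨a1, a2, a3, a4⟩ := hT w hw
      exact ⟨a1, a2, neg_ne_zero.2 a3, (abs_neg _).le.trans a4⟩)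
    have := mul_nonneg hC2 hW
    linarith
  · have g := h1 S N hS hN hNS (T.image Prod.swap) (fun w hw => by
      obtain ⟨x, hx, rfl⟩ := mem_image.1 hw
      obtain ⟨a1, a2, a3, a4⟩ := hT x hx
      refine ⟨⟨a1.1.symm, ?_⟩, a2, ?_, ?_⟩
      · simp only [Prod.fst_swap, Prod.snd_swap]
        have : x.2 * x.1 * (x.2 - x.1) = -(x.1 * x.2 * (x.1 - x.2)) := by ring
        rw [this]
        exact neg_ne_zero.2 a1.2
      · simp only [Prod.fst_swap, Prod.snd_swap]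
        rw [add_comm x.2]
        exact neg_ne_zero.2 a3
      · simp only [Prod.fst_swap, Prod.snd_swap]
        rw [abs_neg, add_comm x.2]
        exact a4)
    rw [sum_image (fun a _ b _ hab => Prod.swap_injective hab)] at g
    simp only [Prod.fst_swap, Prod.snd_swap] at g
    have e1 : ∀ w : ℤ × ℤ, Q w.2 w.1 ^ r = Q w.1 w.2 ^ r := fun w => by rw [hsym]
    simp only [e1] at g
    have := mul_nonneg hC2 hW
    linarith
  · have g := h2 S N hS hN hNS T hT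
    have := mul_nonneg hC1 hW
    linarith

/-- the widths of the strips -/
def Sj (J j : ℕ) : ℕ := 2 ^ (4 * J - 2 * j + 1)

/-- the lengths of the strips -/
def Nj (J j : ℕ) : ℕ := if j < J then 2 ^ (4 * J + j + 2) else 2 ^ (6 * J + 2)

lemma level {J s n : ℕ} (hJ : 1 ≤ J) (hs : 1 ≤ s) (h1 : s * n ^ 2 ≤ 8 * 2 ^ (12 * J))
    (h2 : s ^ 3 ≤ 2 ^ (12 * J)) : ∃ j ≤ J, s ≤ Sj J j ∧ n ≤ Nj J j := by
  have key : ∀ k : ℕ, k ≤ J → (∃ j ≤ J, s ≤ Sj J j ∧ n ≤ Nj J j) ∨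
      (s ≤ Sj J k ∧ (1 ≤ k → 2 ^ (4 * J + k + 1) < n)) := by
    intro k
    induction k with
    | zero =>
      intro _
      right
      refine ⟨?_, fun h => absurd h (by norm_num)⟩
      unfold Sj
      have h3 : s ^ 3 ≤ (2 ^ (4 * J)) ^ 3 := by
        rw [← pow_mul]
        convert h2 using 2
        ring
      have h4 := (Nat.pow_le_pow_iff_left (by norm_num : (3 : ℕ) ≠ 0)).1 h3
      exact h4.trans (Nat.pow_le_pow_right (by norm_num) (by omega))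
    | succ k ih =>
      intro hk
      rcases ih (by omega) with h | ⟨h3, h4⟩
      · exact Or.inl h
      by_cases h5 : n ≤ Nj J k
      · exact Or.inl ⟨k, by omega, h3, h5⟩
      right
      unfold Nj at h5
      rw [if_pos (by omega)] at h5
      push Not at h5
      have h6 : 2 ^ (4 * J + (k + 1) + 1) < n := by
        rw [show 4 * J + (k + 1) + 1 = 4 * J + k + 2 by omega]
        exact h5
      refine ⟨?_, fun _ => h6⟩
      unfold Sj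
      by_contra h7
      push Not at h7
      have h8 : 2 ^ (4 * J - 2 * (k + 1) + 1) * (2 ^ (4 * J + (k + 1) + 1)) ^ 2 ≤
          s * n ^ 2 := Nat.mul_le_mul h7.le (Nat.pow_le_pow_left h6.le 2)
      have h9 : 2 ^ (4 * J - 2 * (k + 1) + 1) * (2 ^ (4 * J + (k + 1) + 1)) ^ 2 =
          8 * 2 ^ (12 * J) := by
        rw [← pow_mul, ← pow_add, show (8 : ℕ) = 2 ^ 3 by norm_num, ← pow_add]
        congr 1
        omega
      have h10 : 2 ^ (4 * J - 2 * (k + 1) + 1) * (2 ^ (4 * J + (k + 1) + 1)) ^ 2 <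
          s * n ^ 2 := lt_of_lt_of_le (Nat.mul_lt_mul_of_pos_right h7 (by positivity))
            (Nat.mul_le_mul_left _ (Nat.pow_le_pow_left h6.le 2))
      omega
  rcases key J le_rfl with h | ⟨h3, h4⟩
  · exact h
  refine ⟨J, le_rfl, h3, ?_⟩
  unfold Nj
  rw [if_neg (lt_irrefl J)]
  by_contra h5
  push Not at h5
  have h6 : 1 * (2 ^ (6 * J + 2)) ^ 2 ≤ s * n ^ 2 :=
    Nat.mul_le_mul hs (Nat.pow_le_pow_left h5.le 2)
  have h7 : (2 ^ (6 * J + 2)) ^ 2 = 16 * 2 ^ (12 * J) := by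
    rw [← pow_mul, show (16 : ℕ) = 2 ^ 4 by norm_num, ← pow_add]
    congr 1
    omega
  have h8 : 0 < 2 ^ (12 * J) := by positivity
  omega

end Pool.Agent.U214.DO
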