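import Mathlib
import Pool.Agent.U214.DO.B

/-!
# The coprime pairs ordered by the discriminant
-/

set_option autoImplicit false

namespace Pool.Agent.U214.DO

open Finset Pool.Agent.U214.GT Pool.Agent.U214.UN

/-- the coprime pairs with `0 < |a b (a - b)| ≤ Z` -/
noncomputable def DP (Z : ℕ) : Finset (ℤ × ℤ) :=
  ((Icc (-(Z : ℤ)) Z) ×ˢ (Icc (-(Z : ℤ)) Z)).filter (fun w : ℤ × ℤ =>
    IsCoprime w.1 w.2 ∧ w.1 * w.2 * (w.1 - w.2) ≠ 0 ∧ |w.1 * w.2 * (w.1 - w.2)| ≤ Z)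

lemma aux3 {x y z n M : ℕ} (h1 : x ≤ y) (h2 : x ≤ z) (h3 : n ≤ 2 * y) (h4 : y ≤ 2 * z)
    (hP : x * y * z ≤ M) : x * n ^ 2 ≤ 8 * M ∧ x ^ 3 ≤ M := by
  constructor
  · calc x * n ^ 2 ≤ x * (2 * y) ^ 2 := Nat.mul_le_mul_left _ (Nat.pow_le_pow_left h3 2)
      _ = 4 * (x * y) * y := by ring
      _ ≤ 4 * (x * y) * (2 * z) := Nat.mul_le_mul_left _ h4
      _ = 8 * (x * y * z) := by ring
      _ ≤ 8 * M := Nat.mul_le_mul_left _ hP
  · calc x ^ 3 = x * x * x := by ring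
      _ ≤ x * y * z := Nat.mul_le_mul (Nat.mul_le_mul_left _ h1) h2
      _ ≤ M := hP

lemma cover {J Z : ℕ} (hJ : 1 ≤ J) (hZ : Z ≤ 2 ^ (12 * J)) {w : ℤ × ℤ} (hw : w ∈ DP Z) :
    ∃ j ≤ J, (|w.1| ≤ Sj J j ∧ |w.1 + w.2| ≤ Nj J j) ∨ (|w.2| ≤ Sj J j ∧ |w.1 + w.2| ≤ Nj J j) ∨
      (|w.1 - w.2| ≤ Sj J j ∧ |2 * w.1 - w.2| ≤ Nj J j) := by
  unfold DP at hw
  rw [mem_filter] at hw
  obtain ⟨-, -, h2, h3⟩ := hw
  have hx0 : w.1 ≠ 0 := left_ne_zero_of_mul (left_ne_zero_of_mul h2)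
  have hy0 : w.2 ≠ 0 := right_ne_zero_of_mul (left_ne_zero_of_mul h2)
  have hz0 : w.1 - w.2 ≠ 0 := right_ne_zero_of_mul h2
  have hP : w.1.natAbs * w.2.natAbs * (w.1 - w.2).natAbs ≤ 2 ^ (12 * J) := by
    rw [← Int.natAbs_mul, ← Int.natAbs_mul]
    refine le_trans ?_ hZ
    zify
    exact h3
  have ab : ∀ x : ℤ, ∀ N : ℕ, x.natAbs ≤ N → |x| ≤ N := fun x N h => by
    rw [Int.abs_eq_natAbs]
    exact_mod_cast h
  rcases le_total w.1.natAbs w.2.natAbs with a1 | a1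
  · rcases le_total w.1.natAbs (w.1 - w.2).natAbs with a2 | a2
    · obtain ⟨g1, g2⟩ := aux3 (n := (w.1 + w.2).natAbs) a1 a2 (by omega) (by omega) hP
      obtain ⟨j, hj, k1, k2⟩ := level hJ (by omega) g1 g2
      exact ⟨j, hj, Or.inl ⟨ab _ _ k1, ab _ _ k2⟩⟩
    · obtain ⟨g1, g2⟩ := aux3 (x := (w.1 - w.2).natAbs) (y := w.1.natAbs) (z := w.2.natAbs)
        (n := (2 * w.1 - w.2).natAbs) (M := 2 ^ (12 * J)) a2 (by omega) (by omega) (by omega) (by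
          rw [mul_comm (w.1 - w.2).natAbs, mul_assoc, mul_comm (w.1 - w.2).natAbs, ← mul_assoc]
          exact hP)
      obtain ⟨j, hj, k1, k2⟩ := level hJ (by omega) g1 g2
      exact ⟨j, hj, Or.inr (Or.inr ⟨ab _ _ k1, ab _ _ k2⟩)⟩
  · rcases le_total w.2.natAbs (w.1 - w.2).natAbs with a2 | a2
    · obtain ⟨g1, g2⟩ := aux3 (x := w.2.natAbs) (y := w.1.natAbs) (z := (w.1 - w.2).natAbs)
        (n := (w.1 + w.2).natAbs) (M := 2 ^ (12 * J)) a1 a2 (by omega) (by omega) (by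
          rw [mul_comm w.2.natAbs]
          exact hP)
      obtain ⟨j, hj, k1, k2⟩ := level hJ (by omega) g1 g2
      exact ⟨j, hj, Or.inr (Or.inl ⟨ab _ _ k1, ab _ _ k2⟩)⟩
    · obtain ⟨g1, g2⟩ := aux3 (x := (w.1 - w.2).natAbs) (y := w.1.natAbs) (z := w.2.natAbs)
        (n := (2 * w.1 - w.2).natAbs) (M := 2 ^ (12 * J)) (by omega) a2 (by omega) (by omega) (by
          rw [mul_comm (w.1 - w.2).natAbs, mul_assoc, mul_comm (w.1 - w.2).natAbs, ← mul_assoc]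
          exact hP)
      obtain ⟨j, hj, k1, k2⟩ := level hJ (by omega) g1 g2
      exact ⟨j, hj, Or.inr (Or.inr ⟨ab _ _ k1, ab _ _ k2⟩)⟩

/-- the exceptional pairs -/
def Ex : Finset (ℤ × ℤ) := {(1, -1), (-1, 1), (1, 2), (-1, -2)}

lemma mem_Ex {w : ℤ × ℤ} (h : IsCoprime w.1 w.2) (h1 : w.1 + w.2 = 0 ∨ 2 * w.1 - w.2 = 0) :
    w ∈ Ex := by
  have hu : IsUnit w.1 := by
    rw [isUnit_iff_dvd_one]
    obtain ⟨x, y, hxy⟩ := h
    rcases h1 with h1 | h1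
    · exact ⟨x - y, by
        have : w.2 = -w.1 := by omega
        rw [this] at hxy
        linear_combination -hxy⟩
    · exact ⟨x + 2 * y, by
        have : w.2 = 2 * w.1 := by omega
        rw [this] at hxy
        linear_combination -hxy⟩
  have : w = (w.1, w.2) := rfl
  rw [this]
  unfold Ex
  rcases Int.isUnit_iff.1 hu with h2 | h2 <;> rcases h1 with h1 | h1
  · have h3 : w.2 = -1 := by omega
    rw [h2, h3]
    decide
  · have h3 : w.2 = 2 := by omega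
    rw [h2, h3]
    decide
  · have h3 : w.2 = 1 := by omega
    rw [h2, h3]
    decide
  · have h3 : w.2 = -2 := by omega
    rw [h2, h3]
    decide

lemma sum_area (J : ℕ) : ∑ j ∈ range (J + 1), ((Sj J j : ℝ) * Nj J j) ≤ 2 ^ (8 * J + 5) := by
  rw [sum_range_succ]
  have h1 : ∀ j ∈ range J, (Sj J j : ℝ) * Nj J j = 2 ^ (8 * J + 3) * (1 / 2) ^ j := by
    intro j hj
    rw [mem_range] at hj
    unfold Sj Nj
    rw [if_pos hj]
    push_cast
    rw [one_div, inv_pow, ← div_eq_mul_inv, eq_div_iff (by positivity), ← pow_add, ← pow_add]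
    congr 1
    omega
  have h2 : (Sj J J : ℝ) * Nj J J = 2 ^ (8 * J + 3) := by
    unfold Sj Nj
    rw [if_neg (lt_irrefl J)]
    push_cast
    rw [← pow_add]
    congr 1
    omega
  rw [sum_congr rfl h1, h2, ← mul_sum]
  have h3 := sum_geometric_two_le J
  have h4 : (0 : ℝ) < 2 ^ (8 * J + 3) := by positivity
  have h5 : (2 : ℝ) ^ (8 * J + 5) = 4 * 2 ^ (8 * J + 3) := by
    rw [show 8 * J + 5 = (8 * J + 3) + 2 by ring, pow_add]
    ring
  rw [h5]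
  nlinarith

lemma Nj_le (J j : ℕ) (hj : j ≤ J) : Nj J j ≤ Sj J j ^ 4 := by
  unfold Nj Sj
  rw [← pow_mul]
  split_ifs with h
  · exact Nat.pow_le_pow_right (by norm_num) (by omega)
  · exact Nat.pow_le_pow_right (by norm_num) (by omega)

/-- the bound by the level -/
lemma byJ {Q : ℤ → ℤ → ℝ} (hQ : QL Q) (hsym : ∀ a b, Q a b = Q b a) (r : ℕ) :
    ∃ C : ℝ, 0 ≤ C ∧ ∀ J Z : ℕ, 1 ≤ J → Z ≤ 2 ^ (12 * J) →
      ∑ w ∈ DP Z, Q w.1 w.2 ^ r ≤ ∑ w ∈ Ex, Q w.1 w.2 ^ r + C * (2 ^ (8 * J) * (2 + 4 * J) ^ e2 r) := by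
  classical
  obtain ⟨C, hC, h⟩ := strips hQ hsym r
  refine ⟨3 * C * 32, by positivity, fun J Z hJ hZ => ?_⟩
  set f : ℤ × ℤ → ℝ := fun w => Q w.1 w.2 ^ r with hf
  have hf0 : ∀ w, 0 ≤ f w := fun w => pow_nonneg (hQ.nn _ _) _
  set T0 : ℕ → Finset (ℤ × ℤ) := fun j => (DP Z).filter (fun w =>
    |w.1| ≤ Sj J j ∧ w.1 + w.2 ≠ 0 ∧ |w.1 + w.2| ≤ Nj J j) with hT0
  set T1 : ℕ → Finset (ℤ × ℤ) := fun j => (DP Z).filter (fun w =>
    |w.2| ≤ Sj J j ∧ w.1 + w.2 ≠ 0 ∧ |w.1 + w.2| ≤ Nj J j) with hT1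
  set T2 : ℕ → Finset (ℤ × ℤ) := fun j => (DP Z).filter (fun w =>
    |w.1 - w.2| ≤ Sj J j ∧ 2 * w.1 - w.2 ≠ 0 ∧ |2 * w.1 - w.2| ≤ Nj J j) with hT2
  have hpt : ∀ w ∈ DP Z, f w ≤ (if w ∈ Ex then f w else 0) + ∑ j ∈ range (J + 1),
      ((if w ∈ T0 j then f w else 0) + (if w ∈ T1 j then f w else 0) +
        (if w ∈ T2 j then f w else 0)) := by
    intro w hw
    have hn : ∀ j, 0 ≤ ((if w ∈ T0 j then f w else 0) + (if w ∈ T1 j then f w else 0) +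
        (if w ∈ T2 j then f w else 0)) := by
      intro j
      have := hf0 w
      split_ifs <;> linarith
    have hs0 := sum_nonneg (s := range (J + 1)) fun j _ => hn j
    by_cases hE : w ∈ Ex
    · rw [if_pos hE]
      linarith
    rw [if_neg hE, zero_add]
    have hcop : IsCoprime w.1 w.2 := by
      unfold DP at hw
      exact (mem_filter.1 hw).2.1
    have e1 : w.1 + w.2 ≠ 0 := fun h0 => hE (mem_Ex hcop (Or.inl h0))
    have e2 : 2 * w.1 - w.2 ≠ 0 := fun h0 => hE (mem_Ex hcop (Or.inr h0))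
    obtain ⟨j, hj, hc⟩ := cover hJ hZ hw
    refine le_trans ?_ (single_le_sum (fun j _ => hn j) (mem_range.2 (Nat.lt_succ_of_le hj)))
    have p0 : 0 ≤ (if w ∈ T0 j then f w else 0) := by split_ifs <;> simp [hf0 w]
    have p1 : 0 ≤ (if w ∈ T1 j then f w else 0) := by split_ifs <;> simp [hf0 w]
    have p2 : 0 ≤ (if w ∈ T2 j then f w else 0) := by split_ifs <;> simp [hf0 w]
    rcases hc with hc | hc | hc
    · have : w ∈ T0 j := mem_filter.2 ⟨hw, hc.1, e1, hc.2⟩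
      rw [if_pos this]
      linarith
    · have : w ∈ T1 j := mem_filter.2 ⟨hw, hc.1, e1, hc.2⟩
      rw [if_pos this] at p1 ⊢
      linarith
    · have : w ∈ T2 j := mem_filter.2 ⟨hw, hc.1, e2, hc.2⟩
      rw [if_pos this] at p2 ⊢
      linarith
  have hok : ∀ w ∈ DP Z, Ok w := fun w hw => by
    unfold DP at hw
    exact ⟨(mem_filter.1 hw).2.1, (mem_filter.1 hw).2.2.1⟩
  have hS1 : ∀ j, 1 ≤ Sj J j := fun j => Nat.one_le_two_pow
  have hN1 : ∀ j, 1 ≤ Nj J j := fun j => by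
    unfold Nj
    split_ifs <;> exact Nat.one_le_two_pow
  have hT : ∀ j ∈ range (J + 1), ∑ w ∈ T0 j, f w + ∑ w ∈ T1 j, f w + ∑ w ∈ T2 j, f w ≤
      3 * C * (2 + 4 * J) ^ e2 r * ((Sj J j : ℝ) * Nj J j) := by
    intro j hj
    rw [mem_range] at hj
    have hb := Nj_le J j (by omega)
    have g0 := h (Sj J j) (Nj J j) (hS1 j) (hN1 j) hb (T0 j) (Or.inl fun w hw => by
      rw [hT0] at hw
      have := mem_filter.1 hw
      exact ⟨hok w this.1, this.2⟩)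
    have g1 := h (Sj J j) (Nj J j) (hS1 j) (hN1 j) hb (T1 j) (Or.inr (Or.inl fun w hw => by
      rw [hT1] at hw
      have := mem_filter.1 hw
      exact ⟨hok w this.1, this.2⟩))
    have g2 := h (Sj J j) (Nj J j) (hS1 j) (hN1 j) hb (T2 j) (Or.inr (Or.inr fun w hw => by
      rw [hT2] at hw
      have := mem_filter.1 hw
      exact ⟨hok w this.1, this.2⟩))
    have hl : (1 + Real.log (Sj J j)) ^ e2 r ≤ (2 + 4 * (J : ℝ)) ^ e2 r := by
      have hs1 : (1 : ℝ) ≤ Sj J j := by exact_mod_cast hS1 j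
      have h0 := Real.log_nonneg hs1
      refine Real.rpow_le_rpow (by linarith) ?_ (e2_nn r)
      have h1 : (Sj J j : ℝ) ≤ 2 ^ (4 * J + 1) := by
        unfold Sj
        push_cast
        exact pow_le_pow_right₀ (by norm_num) (by omega)
      have h2 := Real.log_le_log (by linarith) h1
      rw [Real.log_pow] at h2
      have h3 := Real.log_two_lt_d9
      have h4 : (0 : ℝ) ≤ ((4 * J + 1 : ℕ) : ℝ) := Nat.cast_nonneg _
      have h5 : ((4 * J + 1 : ℕ) : ℝ) * Real.log 2 ≤ ((4 * J + 1 : ℕ) : ℝ) * 1 :=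
        mul_le_mul_of_nonneg_left (by linarith) h4
      push_cast at h2 h5
      linarith
    have hA : (0 : ℝ) ≤ (Sj J j : ℝ) * Nj J j := by positivity
    have hm := mul_le_mul_of_nonneg_left (mul_le_mul_of_nonneg_left hl hA) hC
    calc _ ≤ 3 * (C * ((Sj J j : ℝ) * Nj J j * (1 + Real.log (Sj J j)) ^ e2 r)) := by
          linarith
      _ ≤ 3 * (C * ((Sj J j : ℝ) * Nj J j * (2 + 4 * (J : ℝ)) ^ e2 r)) := by linarith
      _ = _ := by ring
  calc ∑ w ∈ DP Z, f w ≤ ∑ w ∈ DP Z, ((if w ∈ Ex then f w else 0) + ∑ j ∈ range (J + 1),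
      ((if w ∈ T0 j then f w else 0) + (if w ∈ T1 j then f w else 0) +
        (if w ∈ T2 j then f w else 0))) := sum_le_sum hpt
    _ ≤ ∑ w ∈ Ex, f w + ∑ j ∈ range (J + 1), (∑ w ∈ T0 j, f w + ∑ w ∈ T1 j, f w +
        ∑ w ∈ T2 j, f w) := by
        rw [sum_add_distrib, sum_comm]
        refine add_le_add ?_ (sum_le_sum fun j _ => ?_)
        · rw [← sum_filter]
          exact sum_le_sum_of_subset_of_nonneg (fun w hw => (mem_filter.1 hw).2) fun w _ _ => hf0 w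
        · rw [sum_add_distrib, sum_add_distrib, ← sum_filter, ← sum_filter, ← sum_filter]
          refine add_le_add (add_le_add ?_ ?_) ?_ <;>
          exact sum_le_sum_of_subset_of_nonneg (fun w hw => (mem_filter.1 hw).2) fun w _ _ => hf0 w
    _ ≤ ∑ w ∈ Ex, f w + ∑ j ∈ range (J + 1),
        3 * C * (2 + 4 * J) ^ e2 r * ((Sj J j : ℝ) * Nj J j) := by
        linarith [sum_le_sum hT]
    _ ≤ ∑ w ∈ Ex, f w + 3 * C * (2 + 4 * J) ^ e2 r * 2 ^ (8 * J + 5) := by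
        rw [← mul_sum]
        have : 0 ≤ 3 * C * (2 + 4 * (J : ℝ)) ^ e2 r :=
          mul_nonneg (by positivity) (Real.rpow_nonneg (by positivity) _)
        linarith [mul_le_mul_of_nonneg_left (sum_area J) this]
    _ = _ := by
        rw [pow_add]
        ring

/-- **the moments by the discriminant** -/
theorem byDisc {Q : ℤ → ℤ → ℝ} (hQ : QL Q) (hsym : ∀ a b, Q a b = Q b a) (r : ℕ) :
    ∃ C : ℝ, 0 ≤ C ∧ ∀ Z : ℕ, 1 ≤ Z →
      ∑ w ∈ DP Z, Q w.1 w.2 ^ r ≤ C * ((Z : ℝ) ^ ((2 : ℝ) / 3) * (1 + Real.log Z) ^ e2 r) := by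
  obtain ⟨C, hC, h⟩ := byJ hQ hsym r
  have hE0 : 0 ≤ ∑ w ∈ Ex, Q w.1 w.2 ^ r := sum_nonneg fun w _ => pow_nonneg (hQ.nn _ _) _
  refine ⟨∑ w ∈ Ex, Q w.1 w.2 ^ r + C * (256 * 6 ^ e2 r), by positivity, fun Z hZ => ?_⟩
  set k := Nat.log 4096 Z with hk
  have h1 : 4096 ^ k ≤ Z := Nat.pow_log_le_self 4096 (by omega)
  have h2 : Z < 4096 ^ (k + 1) := Nat.lt_pow_succ_log_self (by norm_num) Z
  have h3 := h (k + 1) Z (by omega) (by
    rw [pow_mul, show (2 : ℕ) ^ 12 = 4096 by norm_num]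
    exact h2.le)
  have hZr : (1 : ℝ) ≤ Z := by exact_mod_cast hZ
  have hl : 0 ≤ Real.log Z := Real.log_nonneg hZr
  have h4 : (2 : ℝ) ^ (8 * (k + 1)) ≤ 256 * (Z : ℝ) ^ ((2 : ℝ) / 3) := by
    have a1 : ((4096 : ℝ) ^ k) ^ ((2 : ℝ) / 3) ≤ (Z : ℝ) ^ ((2 : ℝ) / 3) :=
      Real.rpow_le_rpow (by positivity) (by exact_mod_cast h1) (by norm_num)
    have a2 : ((4096 : ℝ) ^ k) ^ ((2 : ℝ) / 3) = 256 ^ k := by
      rw [← Real.rpow_natCast, ← Real.rpow_mul (by norm_num), mul_comm,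
        Real.rpow_mul (by norm_num), Real.rpow_natCast]
      congr 1
      rw [show (4096 : ℝ) = 16 ^ (3 : ℝ) by norm_num, ← Real.rpow_mul (by norm_num)]
      norm_num
    have a3 : (2 : ℝ) ^ (8 * (k + 1)) = 256 * 256 ^ k := by
      rw [pow_mul, pow_succ]
      norm_num
      ring
    rw [a3, ← a2]
    linarith
  have h5 : (2 + 4 * ((k + 1 : ℕ) : ℝ)) ^ e2 r ≤ 6 ^ e2 r * (1 + Real.log Z) ^ e2 r := by
    rw [← Real.mul_rpow (by norm_num) (by linarith)]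
    refine Real.rpow_le_rpow (by positivity) ?_ (e2_nn r)
    have b1 : Real.log ((4096 : ℝ) ^ k) ≤ Real.log Z :=
      Real.log_le_log (by positivity) (by exact_mod_cast h1)
    rw [Real.log_pow] at b1
    have b2 : (1 : ℝ) ≤ Real.log 4096 := by
      rw [show (4096 : ℝ) = 2 ^ 12 by norm_num, Real.log_pow]
      have := Real.log_two_gt_d9
      push_cast
      linarith
    have b3 : (k : ℝ) * 1 ≤ k * Real.log 4096 :=
      mul_le_mul_of_nonneg_left b2 (Nat.cast_nonneg _)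
    push_cast
    linarith
  have h6 : (1 : ℝ) ≤ (Z : ℝ) ^ ((2 : ℝ) / 3) * (1 + Real.log Z) ^ e2 r := by
    have c1 : (1 : ℝ) ≤ (Z : ℝ) ^ ((2 : ℝ) / 3) := Real.one_le_rpow hZr (by norm_num)
    have c2 : (1 : ℝ) ≤ (1 + Real.log Z) ^ e2 r := Real.one_le_rpow (by linarith) (e2_nn r)
    nlinarith
  have h7 : (2 : ℝ) ^ (8 * (k + 1)) * (2 + 4 * ((k + 1 : ℕ) : ℝ)) ^ e2 r ≤
      256 * (Z : ℝ) ^ ((2 : ℝ) / 3) * (6 ^ e2 r * (1 + Real.log Z) ^ e2 r) :=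
    mul_le_mul h4 h5 (Real.rpow_nonneg (by positivity) _) (by positivity)
  have h8 := mul_le_mul_of_nonneg_left h7 hC
  have h9 := mul_le_mul_of_nonneg_left h6 hE0
  rw [add_mul]
  linarith

end Pool.Agent.U214.DO
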