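import Mathlib
import Pool.Agent.U214.DO.C

/-!
# The number of the coprime pairs ordered by the discriminant
-/

set_option autoImplicit false

namespace Pool.Agent.U214.DO

open Finset

lemma sum_sq (H : ℕ) : ∑ d ∈ Icc 2 (H + 2), (1 : ℝ) / (d : ℝ) ^ 2 ≤ 3 / 4 - 1 / (H + 2) := by
  induction H with
  | zero => norm_num
  | succ H ih =>
    rw [show H + 1 + 2 = (H + 2) + 1 by ring, sum_Icc_succ_top (by omega)]
    have h1 : (1 : ℝ) / (((H + 2 + 1 : ℕ) : ℝ)) ^ 2 ≤ 1 / ((H : ℝ) + 2) - 1 / (((H + 1 : ℕ) : ℝ) + 2) := by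
      push_cast
      rw [div_sub_div _ _ (by positivity) (by positivity), div_le_div_iff₀ (by positivity)
        (by positivity)]
      ring_nf
      nlinarith [Nat.cast_nonneg (α := ℝ) H]
    linarith

/-- the coprime pairs of positive integers -/
def S1 (H : ℕ) : Finset (ℕ × ℕ) := ((Ioc 0 H) ×ˢ (Ioc 0 H)).filter (fun w => Nat.Coprime w.1 w.2)

lemma card_S1 (H : ℕ) : (H : ℝ) ^ 2 / 4 ≤ ((S1 H).card : ℝ) := by
  classical
  have h1 : (((Ioc 0 H) ×ˢ (Ioc 0 H)).filter (fun w : ℕ × ℕ => ¬ Nat.Coprime w.1 w.2)) ⊆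
      (Icc 2 (H + 2)).biUnion (fun d => ((Ioc 0 H).filter (fun x => d ∣ x)) ×ˢ
        ((Ioc 0 H).filter (fun x => d ∣ x))) := by
    intro w hw
    rw [mem_filter, mem_product, mem_Ioc, mem_Ioc] at hw
    obtain ⟨⟨⟨a1, a2⟩, a3, a4⟩, a5⟩ := hw
    rw [mem_biUnion]
    have b1 := Nat.gcd_dvd_left w.1 w.2
    have b2 := Nat.gcd_dvd_right w.1 w.2
    have b3 : 0 < Nat.gcd w.1 w.2 := Nat.gcd_pos_of_pos_left _ a1
    have b4 : Nat.gcd w.1 w.2 ≠ 1 := a5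
    have b5 := Nat.le_of_dvd a1 b1
    refine ⟨Nat.gcd w.1 w.2, mem_Icc.2 ⟨by omega, by omega⟩, ?_⟩
    rw [mem_product, mem_filter, mem_filter, mem_Ioc, mem_Ioc]
    exact ⟨⟨⟨a1, a2⟩, b1⟩, ⟨a3, a4⟩, b2⟩
  have h2 : ((((Ioc 0 H) ×ˢ (Ioc 0 H)).filter (fun w : ℕ × ℕ => ¬ Nat.Coprime w.1 w.2)).card : ℝ) ≤
      3 / 4 * (H : ℝ) ^ 2 := by
    have g1 := (card_le_card h1).trans card_biUnion_le
    have g2 : (((∑ d ∈ Icc 2 (H + 2), (((Ioc 0 H).filter (fun x => d ∣ x)) ×ˢ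
        ((Ioc 0 H).filter (fun x => d ∣ x))).card : ℕ)) : ℝ) ≤
        ∑ d ∈ Icc 2 (H + 2), (H : ℝ) ^ 2 * (1 / (d : ℝ) ^ 2) := by
      push_cast
      refine sum_le_sum fun d hd => ?_
      rw [mem_Icc] at hd
      rw [card_product, Nat.Ioc_filter_dvd_card_eq_div]
      have e1 : ((H / d : ℕ) : ℝ) ≤ (H : ℝ) / d := Nat.cast_div_le
      have e2 : (0 : ℝ) ≤ ((H / d : ℕ) : ℝ) := Nat.cast_nonneg _
      calc (((H / d * (H / d) : ℕ)) : ℝ) = ((H / d : ℕ) : ℝ) * ((H / d : ℕ) : ℝ) := by push_cast; ring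
        _ ≤ ((H : ℝ) / d) * ((H : ℝ) / d) := mul_le_mul e1 e1 e2 (e2.trans e1)
        _ = _ := by
          rw [div_mul_div_comm]
          ring
    rw [← mul_sum] at g2
    have g3 := sum_sq H
    have g4 : (0 : ℝ) ≤ 1 / ((H : ℝ) + 2) := by positivity
    have g5 : (((((Ioc 0 H) ×ˢ (Ioc 0 H)).filter (fun w : ℕ × ℕ =>
        ¬ Nat.Coprime w.1 w.2)).card : ℕ) : ℝ) ≤ (((∑ d ∈ Icc 2 (H + 2),
        (((Ioc 0 H).filter (fun x => d ∣ x)) ×ˢ
        ((Ioc 0 H).filter (fun x => d ∣ x))).card : ℕ)) : ℝ) := by exact_mod_cast g1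
    have g6 : (H : ℝ) ^ 2 * ∑ d ∈ Icc 2 (H + 2), (1 : ℝ) / (d : ℝ) ^ 2 ≤ (H : ℝ) ^ 2 * (3 / 4) :=
      mul_le_mul_of_nonneg_left (by linarith) (by positivity)
    linarith
  have h3 : (S1 H).card + (((Ioc 0 H) ×ˢ (Ioc 0 H)).filter (fun w : ℕ × ℕ =>
      ¬ Nat.Coprime w.1 w.2)).card = H * H := by
    unfold S1
    rw [card_filter_add_card_filter_not, card_product, Nat.card_Ioc, Nat.sub_zero]
  have h4 : ((S1 H).card : ℝ) + ((((Ioc 0 H) ×ˢ (Ioc 0 H)).filter (fun w : ℕ × ℕ =>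
      ¬ Nat.Coprime w.1 w.2)).card : ℝ) = (H : ℝ) * H := by exact_mod_cast h3
  nlinarith

lemma dp_of_S1 {H Z : ℕ} (h : H ^ 3 ≤ Z) : (S1 H).card ≤ (DP Z).card + 1 := by
  classical
  have h1 : ((S1 H).erase (1, 1)).image (fun w => ((w.1 : ℤ), (w.2 : ℤ))) ⊆ DP Z := by
    intro w hw
    obtain ⟨x, hx, rfl⟩ := mem_image.1 hw
    rw [mem_erase] at hx
    obtain ⟨hx1, hx⟩ := hx
    unfold S1 at hx
    rw [mem_filter, mem_product, mem_Ioc, mem_Ioc] at hx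
    obtain ⟨⟨⟨a1, a2⟩, a3, a4⟩, a5⟩ := hx
    have hne : x.1 ≠ x.2 := by
      intro h0
      rw [h0, Nat.coprime_self] at a5
      apply hx1
      exact Prod.ext (h0.trans a5) a5
    have hH : H ≤ H ^ 3 := Nat.le_self_pow (by norm_num) _
    have b1 : ((x.1 : ℤ) - x.2) ≠ 0 := by omega
    have b2 : |(x.1 : ℤ) * x.2 * (x.1 - x.2)| ≤ (H : ℤ) ^ 3 := by
      rw [abs_mul, abs_mul]
      have c1 : |(x.1 : ℤ)| ≤ H := by rw [abs_le]; omega
      have c2 : |(x.2 : ℤ)| ≤ H := by rw [abs_le]; omega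
      have c3 : |(x.1 : ℤ) - x.2| ≤ H := by rw [abs_le]; omega
      calc |(x.1 : ℤ)| * |(x.2 : ℤ)| * |(x.1 : ℤ) - x.2| ≤ (H : ℤ) * H * H :=
            mul_le_mul (mul_le_mul c1 c2 (abs_nonneg _) (by positivity)) c3 (abs_nonneg _)
              (by positivity)
        _ = _ := by ring
    unfold DP
    rw [mem_filter, mem_product, mem_Icc, mem_Icc]
    refine ⟨⟨⟨by simp only; omega, by simp only; omega⟩, by simp only; omega,
      by simp only; omega⟩, ?_, ?_, ?_⟩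
    · exact Nat.isCoprime_iff_coprime.2 a5
    · exact mul_ne_zero (mul_ne_zero (by simp only; omega) (by simp only; omega)) b1
    · exact b2.trans (by exact_mod_cast h)
  have h2 := card_le_card h1
  rw [card_image_of_injective _ (by
    intro a b hab
    have h5 := congrArg Prod.fst hab
    have h6 := congrArg Prod.snd hab
    simp only at h5 h6
    exact Prod.ext (by omega) (by omega))] at h2
  have h3 := pred_card_le_card_erase (s := S1 H) (a := (1, 1))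
  omega

/-- **the number of the pairs** -/
theorem cnt (Z : ℕ) (hZ : 2 ≤ Z) : (Z : ℝ) ^ ((2 : ℝ) / 3) / 32 ≤ ((DP Z).card : ℝ) := by
  classical
  set H := ⌊(Z : ℝ) ^ ((1 : ℝ) / 3)⌋₊ with hH
  have hZr : (2 : ℝ) ≤ Z := by exact_mod_cast hZ
  have h0 : (1 : ℝ) ≤ (Z : ℝ) ^ ((1 : ℝ) / 3) := Real.one_le_rpow (by linarith) (by norm_num)
  have h1 : (H : ℝ) ≤ (Z : ℝ) ^ ((1 : ℝ) / 3) := Nat.floor_le (by linarith)
  have h2 : (Z : ℝ) ^ ((1 : ℝ) / 3) < H + 1 := Nat.lt_floor_add_one _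
  have h3 : 1 ≤ H := Nat.le_floor (by exact_mod_cast h0)
  have h3r : (1 : ℝ) ≤ H := by exact_mod_cast h3
  have h4 : H ^ 3 ≤ Z := by
    have : (H : ℝ) ^ 3 ≤ Z := by
      calc (H : ℝ) ^ 3 ≤ ((Z : ℝ) ^ ((1 : ℝ) / 3)) ^ 3 := pow_le_pow_left₀ (by positivity) h1 3
        _ = Z := by
          rw [← Real.rpow_natCast, ← Real.rpow_mul (by linarith)]
          norm_num
    exact_mod_cast this
  have h5 : (Z : ℝ) ^ ((2 : ℝ) / 3) = ((Z : ℝ) ^ ((1 : ℝ) / 3)) ^ 2 := by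
    rw [← Real.rpow_natCast, ← Real.rpow_mul (by linarith)]
    norm_num
  have h6 : (Z : ℝ) ^ ((2 : ℝ) / 3) ≤ 4 * (H : ℝ) ^ 2 := by
    rw [h5]
    nlinarith
  have h7 := card_S1 H
  have h8 : ((S1 H).card : ℝ) ≤ (DP Z).card + 1 := by exact_mod_cast dp_of_S1 h4
  have h9 : (1 : ℝ) ≤ (DP Z).card := by
    have : 0 < (DP Z).card := by
      apply card_pos.2
      refine ⟨(1, -1), ?_⟩
      unfold DP
      rw [mem_filter, mem_product, mem_Icc, mem_Icc]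
      refine ⟨⟨⟨by simp only; omega, by simp only; omega⟩, by simp only; omega,
        by simp only; omega⟩, ?_, ?_, ?_⟩
      · exact isCoprime_one_left
      · norm_num
      · simp only
        norm_num
        exact_mod_cast hZ
    exact_mod_cast this
  nlinarith

end Pool.Agent.U214.DO
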